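import Pool.Agent.helper40.TW.SpecG

set_option autoImplicit false

open Complex MeasureTheory Metric
open scoped ComplexConjugate ArithmeticFunction.vonMangoldt

namespace Pool.Agent.TWG

open Pool.Agent.helper6.LD (wt)
open Pool.Agent.helper85.BVP (ex)
open Pool.Agent.TW (Win Pw)

theorem LCT_re (r v : ℝ) (ρ : ℂ) : (sp r v - ρ).re = r + (1 - ρ.re) := by
  unfold sp
  simp
  ring

theorem LCT_log {M : ℕ} (h : 3 ≤ M) : 1 ≤ Real.log M := by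
  have hM : (3 : ℝ) ≤ M := by exact_mod_cast h
  rw [Real.le_log_iff_exp_le (by linarith)]
  have := Real.exp_one_lt_d9
  linarith

theorem LCT_nonneg (r v : ℝ) (ρ : ℂ) (hr : 0 < r) (hρ : ρ.re < 1) : 0 ≤ ((sp r v - ρ)⁻¹).re := by
  rw [Complex.inv_re, LCT_re]
  exact div_nonneg (by linarith) (Complex.normSq_nonneg _)

theorem LCT_ge (r v : ℝ) (ρ : ℂ) (hr : 0 < r) (hρ : ρ.re < 1) (h : ‖sp r v - ρ‖ ≤ 2 * r) :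
    1 / (4 * r) ≤ ((sp r v - ρ)⁻¹).re := by
  rw [Complex.inv_re, LCT_re, Complex.normSq_eq_norm_sq]
  have h0 : 0 < ‖sp r v - ρ‖ := by
    rw [norm_pos_iff]
    intro h1
    have h2 := congrArg Complex.re h1
    rw [LCT_re, Complex.zero_re] at h2
    linarith
  rw [div_le_div_iff₀ (by linarith) (by positivity), one_mul]
  have h3 : ‖sp r v - ρ‖ ^ 2 ≤ (2 * r) ^ 2 := pow_le_pow_left₀ h0.le h 2
  nlinarith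

theorem LCT (hZFI : ZFI_stmt) (hSER : SER_stmt) (hEXP : EXP_stmt) (hZE1 : ZE1_stmt) : LCT_stmt := by
  obtain ⟨C1, hC1, hE1, -⟩ := hZE1
  obtain ⟨CE, ME, hCE, hME, hE⟩ := hEXP (3 / 8) (by norm_num) le_rfl
  refine ⟨4 * (8 / 3 * CE + 1 + C1), ME, by linarith, hME, ?_⟩
  intro M hM q χ hAdm ρ₀ v hρ1 hρ2 hv
  have hℓ1 := LCT_log (hME.trans hM)
  set ℓ : ℝ := Real.log M with hℓ
  have hℓ0 : 0 < ℓ := by linarith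
  have hρ0 : 0 < ρ₀ := lt_of_lt_of_le (by positivity) hρ1
  obtain ⟨z1, z2, z3, z4, z5, z6, z7⟩ := hZFI q χ hAdm.1 hAdm.2.2
  have hr1 : 1 / ℓ ^ 2 ≤ ρ₀ := by
    refine le_trans ?_ hρ1
    rw [div_le_div_iff₀ (by positivity) hℓ0]
    nlinarith
  have hexp := hE M hM q χ hAdm ρ₀ v 1 hr1 (by linarith) hv le_rfl
  have hser := (hSER q χ 1 ρ₀ (by have := hAdm.1; omega) le_rfl hρ0).2.2.2.1 v
  have hS := hE1 ρ₀ hρ0 (by linarith)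
  have hinv : 1 / ρ₀ ≤ ℓ := by
    rw [div_le_iff₀ hρ0]
    rw [div_le_iff₀ hℓ0] at hρ1
    linarith
  set T := ZS χ (closedBall (sp ρ₀ v) (3 / 8)) with hT
  set T0 := ZS χ (closedBall (sp 0 v) ρ₀) with hT0
  have hmem0 : ∀ ρ ∈ T0, LL χ ρ = 0 ∧ ‖sp ρ₀ v - ρ‖ ≤ 2 * ρ₀ := by
    intro ρ hρ
    obtain ⟨h1, h2⟩ := (z4 _ isBounded_closedBall ρ).1 hρ
    refine ⟨h2, ?_⟩
    rw [mem_closedBall, dist_eq_norm, norm_sub_rev] at h1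
    have e1 : sp ρ₀ v - ρ = (ρ₀ : ℂ) + (sp 0 v - ρ) := by
      unfold sp
      push_cast
      ring
    rw [e1]
    refine (norm_add_le _ _).trans ?_
    rw [Complex.norm_real, Real.norm_of_nonneg hρ0.le]
    linarith
  have hsub : T0 ⊆ T := by
    intro ρ hρ
    obtain ⟨h1, h2⟩ := hmem0 ρ hρ
    rw [hT, z4 _ isBounded_closedBall ρ]
    refine ⟨?_, h1⟩
    rw [mem_closedBall, dist_eq_norm, norm_sub_rev]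
    linarith
  have hmemT : ∀ ρ ∈ T, LL χ ρ = 0 := fun ρ hρ => ((z4 _ isBounded_closedBall ρ).1 hρ).2
  have hsum : (∑ ρ ∈ T, (mz χ ρ : ℂ) * ((sp ρ₀ v - ρ) ^ 1)⁻¹).re = ∑ ρ ∈ T, (mz χ ρ : ℝ) * ((sp ρ₀ v - ρ)⁻¹).re := by
    rw [Complex.re_sum]
    refine Finset.sum_congr rfl fun ρ _ => ?_
    rw [pow_one]
    have e : (mz χ ρ : ℂ) = ((mz χ ρ : ℝ) : ℂ) := by push_cast; rfl
    rw [e, Complex.re_ofReal_mul]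
  have hbound : ∑ ρ ∈ T, (mz χ ρ : ℝ) * ((sp ρ₀ v - ρ)⁻¹).re ≤ (8 / 3 * CE + 1 + C1) * ℓ := by
    rw [← hsum]
    refine (Complex.re_le_norm _).trans ?_
    have e1 : (∑ ρ ∈ T, (mz χ ρ : ℂ) * ((sp ρ₀ v - ρ) ^ 1)⁻¹) =
        (PP χ 1 ρ₀ v + ∑ ρ ∈ T, (mz χ ρ : ℂ) * ((sp ρ₀ v - ρ) ^ 1)⁻¹) - PP χ 1 ρ₀ v := by ring
    rw [e1]
    refine (norm_sub_le _ _).trans ?_
    have h2 : CE * ℓ * ((1 : ℕ) : ℝ) ^ 2 * ((3 / 8 : ℝ) ^ 1)⁻¹ = 8 / 3 * CE * ℓ := by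
      norm_num
      ring
    rw [h2] at hexp
    have h3 : C1 ≤ C1 * ℓ := by nlinarith
    have h4 := hser.trans hS
    calc ‖PP χ 1 ρ₀ v + ∑ ρ ∈ T, (mz χ ρ : ℂ) * ((sp ρ₀ v - ρ) ^ 1)⁻¹‖ + ‖PP χ 1 ρ₀ v‖
        ≤ 8 / 3 * CE * ℓ + (1 / ρ₀ + C1) := add_le_add hexp h4
      _ ≤ 8 / 3 * CE * ℓ + (ℓ + C1 * ℓ) := by linarith
      _ = (8 / 3 * CE + 1 + C1) * ℓ := by ring
  have hlow : nz χ (closedBall (sp 0 v) ρ₀) * (1 / (4 * ρ₀)) ≤ ∑ ρ ∈ T, (mz χ ρ : ℝ) * ((sp ρ₀ v - ρ)⁻¹).re := by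
    unfold nz
    rw [Finset.sum_mul]
    calc ∑ ρ ∈ T0, (mz χ ρ : ℝ) * (1 / (4 * ρ₀)) ≤ ∑ ρ ∈ T0, (mz χ ρ : ℝ) * ((sp ρ₀ v - ρ)⁻¹).re :=
          Finset.sum_le_sum fun ρ hρ => mul_le_mul_of_nonneg_left
            (LCT_ge ρ₀ v ρ hρ0 (z5 ρ (hmem0 ρ hρ).1).2 (hmem0 ρ hρ).2) (Nat.cast_nonneg _)
      _ ≤ ∑ ρ ∈ T, (mz χ ρ : ℝ) * ((sp ρ₀ v - ρ)⁻¹).re :=
          Finset.sum_le_sum_of_subset_of_nonneg hsub fun ρ hρ _ => mul_nonneg (Nat.cast_nonneg _)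
            (LCT_nonneg ρ₀ v ρ hρ0 (z5 ρ (hmemT ρ hρ)).2)
  have h5 := hlow.trans hbound
  rw [mul_one_div, div_le_iff₀ (by positivity)] at h5
  calc nz χ (closedBall (sp 0 v) ρ₀) ≤ (8 / 3 * CE + 1 + C1) * ℓ * (4 * ρ₀) := h5
    _ = 4 * (8 / 3 * CE + 1 + C1) * (ρ₀ * ℓ) := by ring

end Pool.Agent.TWG
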