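import Pool.Agent.helper40.TW.SpecG
import Pool.Agent.helper22.TG.Sie1

set_option autoImplicit false

open Complex MeasureTheory Metric
open scoped ComplexConjugate ArithmeticFunction.vonMangoldt

namespace Pool.Agent.TWG

open Pool.Agent.helper6.LD (wt)
open Pool.Agent.helper85.BVP (ex)
open Pool.Agent.TW (Win Pw)

theorem ZF2_LL {q : ℕ} [NeZero q] (χ : DirichletCharacter ℂ q) (s : ℂ) :
    LL χ s = DirichletCharacter.LFunction χ s := by
  unfold LL
  rw [dif_neg (NeZero.ne q)]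

theorem ZF2_conj {q : ℕ} (hq : 2 ≤ q) {χ : DirichletCharacter ℂ q} (hne : χ ≠ 1) (h : χ ^ 2 = 1) {s : ℂ}
    (hs : LL χ s = 0) : LL χ (conj s) = 0 := by
  have : NeZero q := ⟨by omega⟩
  rw [ZF2_LL] at hs ⊢
  have h1 := Pool.Agent.helper74.TG.h22.conj_LFunction hne h (conj s)
  rw [Complex.conj_conj, hs, map_zero] at h1
  exact h1.symm

theorem ZF2_re (r v : ℝ) (ρ : ℂ) : (sp r v - ρ).re = r + (1 - ρ.re) := by
  unfold sp
  simp
  ring

theorem ZF2_im (r v : ℝ) (ρ : ℂ) : (sp r v - ρ).im = v - ρ.im := by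
  unfold sp
  simp

theorem ZF2_inv (r v : ℝ) (ρ : ℂ) : ((sp r v - ρ)⁻¹).re =
    (r + (1 - ρ.re)) / ((r + (1 - ρ.re)) ^ 2 + (v - ρ.im) ^ 2) := by
  rw [Complex.inv_re, Complex.normSq_apply, ZF2_re, ZF2_im]
  congr 1
  ring

theorem ZF2_norm (r v : ℝ) (ρ : ℂ) (a : ℝ) (h : |r + (1 - ρ.re)| + |v - ρ.im| ≤ a) : ‖sp r v - ρ‖ ≤ a := by
  refine (Complex.norm_le_abs_re_add_abs_im _).trans ?_
  rw [ZF2_re, ZF2_im]
  exact h

/-- the inequality of the first case -/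
theorem ZF2_case1 (u y g C1 C3 C2 ℓ S P Q : ℝ) (hu : 2 ≤ u) (hy : 0 < y) (hyu : y < 1 / (100 * u))
    (hg : 1 / (10 * u) ≤ |g|) (hC : 3 * C1 + 4 * (C3 * ℓ) + C2 * ℓ + ℓ ≤ u)
    (hS : S ≤ 1 / (1 / (10 * u)) + C1)
    (hP : P ≤ -((1 / (10 * u) + y) / ((1 / (10 * u) + y) ^ 2 + (g - g) ^ 2)) + C3 * ℓ)
    (hQ : Q ≤ 1 / (10 * u) / ((1 / (10 * u)) ^ 2 + (2 * g) ^ 2) + C2 * ℓ + ℓ)
    (h : 0 ≤ 3 * S + 4 * P + Q) : False := by
  have hu0 : 0 < u := by linarith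
  have hr : 0 < 1 / (10 * u) := by positivity
  have e1 : 1 / (1 / (10 * u)) = 10 * u := by field_simp
  have e2 : (1 / (10 * u) + y) / ((1 / (10 * u) + y) ^ 2 + (g - g) ^ 2) = 1 / (1 / (10 * u) + y) := by
    have : 0 < 1 / (10 * u) + y := by linarith
    rw [sub_self]
    field_simp
    ring
  have h1 : 100 / 11 * u ≤ 1 / (1 / (10 * u) + y) := by
    rw [le_div_iff₀ (by linarith)]
    have h2 : 1 / (10 * u) + y ≤ 11 / (100 * u) := by
      have : 1 / (10 * u) + 1 / (100 * u) = 11 / (100 * u) := by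
        field_simp
        norm_num
      linarith
    calc 100 / 11 * u * (1 / (10 * u) + y) ≤ 100 / 11 * u * (11 / (100 * u)) :=
          mul_le_mul_of_nonneg_left h2 (by positivity)
      _ = 1 := by field_simp
  have h3 : 1 / (10 * u) / ((1 / (10 * u)) ^ 2 + (2 * g) ^ 2) ≤ 2 * u := by
    have hg2 : (1 / (10 * u)) ^ 2 ≤ g ^ 2 := by
      rw [← sq_abs g]
      exact pow_le_pow_left₀ hr.le hg 2
    have h4 : 0 < (1 / (10 * u)) ^ 2 + (2 * g) ^ 2 := by positivity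
    rw [div_le_iff₀ h4]
    have h5 : 5 * (1 / (10 * u)) ^ 2 ≤ (1 / (10 * u)) ^ 2 + (2 * g) ^ 2 := by nlinarith
    calc 1 / (10 * u) = 2 * u * (5 * (1 / (10 * u)) ^ 2) := by
          field_simp
          norm_num
      _ ≤ 2 * u * ((1 / (10 * u)) ^ 2 + (2 * g) ^ 2) := mul_le_mul_of_nonneg_left h5 (by linarith)
  rw [e1] at hS
  rw [e2] at hP
  linarith

/-- the inequality of the second case -/
theorem ZF2_case2 (u y g C1 C3 ℓ S P : ℝ) (hu : 2 ≤ u) (hy : 0 < y) (hyu : y < 1 / (100 * u))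
    (hg : |g| ≤ 1 / (10 * u)) (hC : C1 + C3 * ℓ ≤ u)
    (hS : S ≤ 1 / (3 / (10 * u)) + C1)
    (hP : P ≤ -(2 * ((3 / (10 * u) + y) / ((3 / (10 * u) + y) ^ 2 + g ^ 2))) + C3 * ℓ)
    (h : 0 ≤ S + P) : False := by
  have hu0 : 0 < u := by linarith
  have hr : 0 < 3 / (10 * u) := by positivity
  have e1 : 1 / (3 / (10 * u)) = 10 / 3 * u := by
    field_simp
  have h1 : 2.8 * u ≤ (3 / (10 * u) + y) / ((3 / (10 * u) + y) ^ 2 + g ^ 2) := by
    have hg2 : g ^ 2 ≤ (1 / (10 * u)) ^ 2 := by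
      rw [← sq_abs g]
      exact pow_le_pow_left₀ (abs_nonneg g) hg 2
    have ht0 : 0 < 3 / (10 * u) + y := by linarith
    have ht : 3 / (10 * u) + y ≤ 31 / (100 * u) := by
      have : 3 / (10 * u) + 1 / (100 * u) = 31 / (100 * u) := by
        field_simp
        norm_num
      linarith
    have ht2 : (3 / (10 * u) + y) ^ 2 ≤ (31 / (100 * u)) ^ 2 := pow_le_pow_left₀ ht0.le ht 2
    rw [le_div_iff₀ (by positivity)]
    calc 2.8 * u * ((3 / (10 * u) + y) ^ 2 + g ^ 2) ≤ 2.8 * u * ((31 / (100 * u)) ^ 2 + (1 / (10 * u)) ^ 2) :=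
          mul_le_mul_of_nonneg_left (add_le_add ht2 hg2) (by positivity)
      _ = 0.29708 / u := by
          field_simp
          norm_num
      _ ≤ 3 / (10 * u) := by
          rw [div_le_div_iff₀ hu0 (by positivity)]
          linarith
      _ ≤ 3 / (10 * u) + y := by linarith
  rw [e1] at hS
  linarith

theorem ZF2 (hZFI : ZFI_stmt) (hZE1 : ZE1_stmt) (hZE2 : ZE2_stmt) (hPOS : POS_stmt) (hPRI : PRI_stmt)
    (hONE : ONE_stmt) : ZF2_stmt := by
  obtain ⟨C1, hC1, hE1, -⟩ := hZE1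
  obtain ⟨C2, M2, hC2, hE2⟩ := hZE2
  obtain ⟨C3, M3, hC3, hM3, hO⟩ := hONE
  set D : ℝ := 3 * C1 + 4 * C3 + C2 + 2 with hD
  have hD2 : 2 ≤ D := by linarith
  have hD0 : 0 < D := by linarith
  refine ⟨1 / (100 * D), max (max M2 M3) (⌈Real.exp (10 * D)⌉₊), by positivity,
    le_trans hM3 (le_trans (le_max_right _ _) (le_max_left _ _)), ?_⟩
  intro M hM q χ hAdm hχ ρ hρ him hIm
  have hMa : M2 ≤ M := le_trans (le_trans (le_max_left _ _) (le_max_left _ _)) hM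
  have hMb : M3 ≤ M := le_trans (le_trans (le_max_right _ _) (le_max_left _ _)) hM
  have hMc : Real.exp (10 * D) ≤ M := (Nat.le_ceil _).trans (by exact_mod_cast le_trans (le_max_right _ _) hM)
  have hM3' : 3 ≤ M := hM3.trans hMb
  obtain ⟨hq2, hqM, hχ1⟩ := hAdm
  have hM0 : (0 : ℝ) < M := by exact_mod_cast (by omega : 0 < M)
  set ℓ : ℝ := Real.log M with hℓ
  have hℓD : 10 * D ≤ ℓ := by
    rw [hℓ, Real.le_log_iff_exp_le hM0]
    exact hMc
  have hℓ1 : 1 ≤ ℓ := by linarith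
  have hℓ0 : 0 < ℓ := by linarith
  set u : ℝ := D * ℓ with hu
  have hu2 : 2 ≤ u := by nlinarith
  have hu0 : 0 < u := by linarith
  by_contra hcon
  have hρ1 : ρ.re < 1 := ((hZFI q χ hq2 hχ1).2.2.2.2.1 ρ hρ).2
  set y : ℝ := 1 - ρ.re with hy
  have hy0 : 0 < y := by linarith
  have hyu : y < 1 / (100 * u) := by
    have h1 : 1 / (100 * D) / Real.log M = 1 / (100 * u) := by
      rw [hu, ← hℓ]
      field_simp
    rw [h1] at hcon
    linarith [not_le.1 hcon]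
  have hyu' : 1 / (100 * u) ≤ 1 / 200 := by
    rw [div_le_div_iff₀ (by positivity) (by norm_num)]
    linarith
  have hr1 : 1 / ℓ ^ 2 ≤ 1 / (10 * u) := by
    rw [div_le_div_iff₀ (by positivity) (by positivity), hu]
    nlinarith
  have hr2 : 1 / (10 * u) ≤ 1 / 20 := by
    rw [div_le_div_iff₀ (by positivity) (by norm_num)]
    linarith
  have hr0 : 0 < 1 / (10 * u) := by positivity
  have hMR : (3 : ℝ) ≤ M := by exact_mod_cast hM3'
  have hM68 : (M : ℝ) ^ 6 ≤ (M : ℝ) ^ 8 := pow_le_pow_right₀ (by linarith) (by norm_num)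
  have h2M68 : 2 * (M : ℝ) ^ 6 ≤ (M : ℝ) ^ 8 := by
    have h1 : (M : ℝ) ^ 8 = (M : ℝ) ^ 2 * (M : ℝ) ^ 6 := by ring
    rw [h1]
    refine mul_le_mul_of_nonneg_right ?_ (by positivity)
    nlinarith
  have hu' : u = 3 * C1 * ℓ + 4 * (C3 * ℓ) + C2 * ℓ + ℓ + ℓ := by
    rw [hu, hD]
    ring
  have hC1ℓ : C1 ≤ C1 * ℓ := by nlinarith
  have hC3ℓ : 0 ≤ C3 * ℓ := by positivity
  have hC2ℓ : 0 ≤ C2 * ℓ := by positivity
  rcases le_or_gt (1 / (10 * u)) |ρ.im| with hγ | hγ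
  · -- first case
    have hpos := (hPOS q χ (1 / (10 * u)) ρ.im (by omega) hr0).1
    rw [hχ] at hpos
    have hS := hE1 (1 / (10 * u)) hr0 (by linarith)
    have hP := hO M hMb q χ ⟨hq2, hqM, hχ1⟩ (1 / (10 * u)) ρ.im hr1 (by linarith) (hIm.trans hM68) {ρ} (by
      intro ρ' hρ'
      rw [Finset.mem_singleton] at hρ'
      subst hρ'
      refine ⟨hρ, ZF2_norm _ _ _ _ ?_⟩
      rw [sub_self, abs_zero, add_zero, abs_of_pos (by linarith)]
      linarith)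
    rw [Finset.sum_singleton, ZF2_inv] at hP
    have hpri := hPRI q (1 / (10 * u)) (2 * ρ.im) (by omega) hr0
    have hz2 := hE2 M hMa (1 / (10 * u)) (2 * ρ.im) hr1 (by linarith) (by
      rw [abs_mul, abs_two]
      linarith)
    have hlog : Real.log q ≤ ℓ := by
      rw [hℓ]
      exact Real.log_le_log (by exact_mod_cast (by omega : 0 < q)) (by exact_mod_cast hqM)
    have hQ : (PP (1 : DirichletCharacter ℂ q) 1 (1 / (10 * u)) (2 * ρ.im)).re ≤
        1 / (10 * u) / ((1 / (10 * u)) ^ 2 + (2 * ρ.im) ^ 2) + C2 * ℓ + ℓ := by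
      have h1 := (Complex.re_le_norm _).trans hpri
      rw [Complex.sub_re] at h1
      linarith
    exact ZF2_case1 u y ρ.im C1 C3 C2 ℓ _ _ _ hu2 hy0 hyu hγ (by linarith) hS hP hQ hpos
  · -- second case
    have hr3 : 0 < 3 / (10 * u) := by positivity
    have e3 : 3 / (10 * u) = 3 * (1 / (10 * u)) := by ring
    have hpos := (hPOS q χ (3 / (10 * u)) 0 (by omega) hr3).2
    have hS := hE1 (3 / (10 * u)) hr3 (by linarith)
    have hne : ρ ≠ conj ρ := by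
      intro h
      have h1 := congrArg Complex.im h
      rw [Complex.conj_im] at h1
      exact him (by linarith)
    have hnorm : ∀ ρ' : ℂ, ρ'.re = ρ.re → |ρ'.im| = |ρ.im| → ‖sp (3 / (10 * u)) 0 - ρ'‖ ≤ 3 / 8 := by
      intro ρ' h1 h2
      refine ZF2_norm _ _ _ _ ?_
      rw [h1, zero_sub, abs_neg, h2, abs_of_pos (by linarith)]
      linarith
    have hP := hO M hMb q χ ⟨hq2, hqM, hχ1⟩ (3 / (10 * u)) 0 (by linarith) (by linarith)
      (by rw [abs_zero]; positivity) {ρ, conj ρ} (by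
      intro ρ' hρ'
      rw [Finset.mem_insert, Finset.mem_singleton] at hρ'
      rcases hρ' with rfl | rfl
      · exact ⟨hρ, hnorm _ rfl rfl⟩
      · refine ⟨ZF2_conj hq2 hχ1 hχ hρ, hnorm _ (Complex.conj_re _) ?_⟩
        rw [Complex.conj_im, abs_neg])
    rw [Finset.sum_pair hne, ZF2_inv, ZF2_inv, Complex.conj_re, Complex.conj_im] at hP
    refine ZF2_case2 u y ρ.im C1 C3 ℓ _ _ hu2 hy0 hyu hγ.le (by linarith) hS ?_ hpos
    have e4 : (0 - ρ.im) ^ 2 = ρ.im ^ 2 := by ring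
    have e5 : (0 - -ρ.im) ^ 2 = ρ.im ^ 2 := by ring
    rw [e4, e5] at hP
    rw [two_mul]
    exact hP

end Pool.Agent.TWG
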